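import Pool.Agent.H.MP_666db5_gt.Main

namespace Pool.Agent.Results.MP_666db5_gt.No

open Pool.Agent.H.MP_666db5_gt

theorem result :
    ∃ (α : Fin 2 → (Fin 4 → ℝ) → (Fin 4 → ℝ) →L[ℝ] ℝ)
      (R ξ : (Fin 4 → ℝ) → Submodule ℝ (Fin 4 → ℝ)) (X : Fin 2 → (Fin 4 → ℝ) → Fin 4 → ℝ)
      (F : (Fin 2 → ℝ) → (Fin 4 → ℝ) → Fin 4 → ℝ),
      TorusContact α R ξ ∧ ReebAction α R X F ∧ ∀ x : Fin 4 → ℝ,
        Submodule.span ℝ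
          {t : Fin 2 → ℝ | ∃ k : Fin 4 → ℤ, F t x = x + fun j => (k j : ℝ)} ≠ ⊤ ∧
        ¬ IsCompact (Set.range fun t : Fin 2 → ℝ => fun j => ((F t x j : ℝ) : UnitAddCircle)) :=
  ⟨al, RR, XI, XX, FF, contact, reeb, fun x => ⟨span_ne x, not_compact x⟩⟩

end Pool.Agent.Results.MP_666db5_gt.No
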